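import Mathlib
import Pool.Agent.H996R2.SBMMain

set_option autoImplicit false

open Filter Topology

namespace Pool.Agent.Results.MP_9b1654_pr.EveryNonUniformPrior

open Pool.Agent.H996R2.SBM

variable {k : ℕ}

/-! ### The labels of the isolated vertices are almost independent of the graph -/

open Classical in
/-- The factors of the likelihood which do not involve the vertex `u`. -/
noncomputable def rest {n : ℕ} (M : Fin k → Fin k → ℝ) (G : SimpleGraph (Fin n)) (u : Fin n)
    (s : Fin n → Fin k) : ℝ :=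
  ∏ e ∈ pairs n \ star u, (if G.Adj e.1 e.2 then edgeProb M n (s e.1) (s e.2)
        else 1 - edgeProb M n (s e.1) (s e.2))

theorem lik_split {n : ℕ} {M : Fin k → Fin k → ℝ} (hsym : ∀ i j, M i j = M j i)
    (G : SimpleGraph (Fin n)) (u : Fin n) (hu : Iso G u) (s : Fin n → Fin k) :
    lik M G s = (∏ v ∈ Finset.univ.erase u, (1 - edgeProb M n (s u) (s v))) * rest M G u s := by
  classical
  rw [← isoP_eq hsym s u, isoP]
  have h1 : ∏ e ∈ star u, (1 - edgeProb M n (s e.1) (s e.2)) =
      ∏ e ∈ star u, (if G.Adj e.1 e.2 then edgeProb M n (s e.1) (s e.2)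
      else 1 - edgeProb M n (s e.1) (s e.2)) := by
    refine Finset.prod_congr rfl fun e he => ?_
    rw [if_neg ((iso_iff G u).1 hu e he)]
  rw [h1, mul_comm]
  unfold rest lik
  have h2 := Finset.prod_sdiff (show star u ⊆ pairs n from Finset.filter_subset _ _)
    (f := fun e => if G.Adj e.1 e.2 then edgeProb M n (s e.1) (s e.2)
      else 1 - edgeProb M n (s e.1) (s e.2))
  convert h2.symm using 2

theorem rest_update {n : ℕ} (M : Fin k → Fin k → ℝ) (G : SimpleGraph (Fin n)) (u : Fin n)
    (s : Fin n → Fin k) (i : Fin k) : rest M G u (Function.update s u i) = rest M G u s := by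
  unfold rest
  refine Finset.prod_congr rfl fun e he => ?_
  rw [Finset.mem_sdiff] at he
  have h1 : e.1 ≠ u := fun h => he.2 (Finset.mem_filter.2 ⟨he.1, Or.inl h⟩)
  have h2 : e.2 ≠ u := fun h => he.2 (Finset.mem_filter.2 ⟨he.1, Or.inr h⟩)
  rw [Function.update_of_ne h1, Function.update_of_ne h2]

theorem rest_nonneg {n : ℕ} {M : Fin k → Fin k → ℝ} (hM : ∀ i j, 0 ≤ M i j)
    (G : SimpleGraph (Fin n)) (u : Fin n)
    (s : Fin n → Fin k) : 0 ≤ rest M G u s := by
  unfold rest
  refine Finset.prod_nonneg fun e _ => ?_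
  split_ifs
  · exact edgeProb_nonneg hM n _ _
  · linarith [edgeProb_le_one M n (s e.1) (s e.2)]

/-- Relabelling an isolated vertex changes the likelihood by a bounded factor. -/
theorem lik_ratio {n : ℕ} {M : Fin k → Fin k → ℝ} (hsym : ∀ i j, M i j = M j i)
    (hM : ∀ i j, 0 ≤ M i j) {C : ℝ} (hC : ∀ i j, M i j ≤ C) (hC0 : 0 ≤ C) (hn : 2 * C ≤ n)
    (hn0 : 0 < n)
    (G : SimpleGraph (Fin n)) (u : Fin n) (hu : Iso G u) (s : Fin n → Fin k) (i j : Fin k) :
    lik M G (Function.update s u j) ≤ Real.exp (2 * C) * lik M G (Function.update s u i) := by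
  have hn' : (0 : ℝ) < n := by exact_mod_cast hn0
  rw [lik_split hsym G u hu, lik_split hsym G u hu (Function.update s u i), rest_update,
    rest_update, ← mul_assoc]
  refine mul_le_mul_of_nonneg_right ?_ (rest_nonneg hM G u s)
  have h1 : ∏ v ∈ Finset.univ.erase u,
      (1 - edgeProb M n (Function.update s u j u) (Function.update s u j v)) ≤ 1 := by
    refine Finset.prod_le_one (fun v _ => ?_) fun v _ => ?_
    · linarith [edgeProb_le_one M n (Function.update s u j u) (Function.update s u j v)]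
    · linarith [edgeProb_nonneg hM n (Function.update s u j u) (Function.update s u j v)]
  have h2 : Real.exp (-(2 * C)) ≤ ∏ v ∈ Finset.univ.erase u,
      (1 - edgeProb M n (Function.update s u i u) (Function.update s u i v)) := by
    have h3 : ∀ v ∈ Finset.univ.erase u, Real.exp (-(2 * C / n)) ≤
        (1 - edgeProb M n (Function.update s u i u) (Function.update s u i v)) := by
      intro v _
      set y := edgeProb M n (Function.update s u i u) (Function.update s u i v) with hy
      have hy0 : 0 ≤ y := edgeProb_nonneg hM n _ _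
      have hy1 : y ≤ C / n := by
        refine (min_le_right _ _).trans ?_
        gcongr
        exact hC _ _
      have hy2 : C / n ≤ 1 / 2 := by
        rw [div_le_iff₀ hn']; linarith
      refine le_trans ?_ (exp_le_one_sub hy0 (hy1.trans hy2))
      rw [Real.exp_le_exp, neg_le_neg_iff]
      have h4 : 2 * C / n = 2 * (C / n) := by ring
      rw [h4]
      nlinarith
    have h4 : Real.exp (-(2 * C / n)) ^ (Finset.univ.erase u).card ≤
        ∏ v ∈ Finset.univ.erase u,
      (1 - edgeProb M n (Function.update s u i u) (Function.update s u i v)) := by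
      rw [← Finset.prod_const]
      exact Finset.prod_le_prod (fun v _ => (Real.exp_pos _).le) h3
    refine le_trans ?_ h4
    rw [← Real.exp_nat_mul, Real.exp_le_exp]
    have h5 : ((Finset.univ.erase u).card : ℝ) ≤ n := by
      have : (Finset.univ.erase u).card ≤ Fintype.card (Fin n) := Finset.card_le_univ _
      rw [Fintype.card_fin] at this
      exact_mod_cast this
    have h6 : ((Finset.univ.erase u).card : ℝ) * (2 * C / n) ≤ n * (2 * C / n) := by
      gcongr
    have h7 : (n : ℝ) * (2 * C / n) = 2 * C := by field_simp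
    linarith
  calc _ ≤ (1 : ℝ) := h1
    _ = Real.exp (2 * C) * Real.exp (-(2 * C)) := by rw [← Real.exp_add]; simp
    _ ≤ _ := by gcongr

/-- The joint weight of the labelling and the graph. -/
noncomputable def jt {n : ℕ} (π : Fin k → ℝ) (M : Fin k → Fin k → ℝ) (G : SimpleGraph (Fin n))
    (σ : Fin n → Fin k) : ℝ := prior π σ * lik M G σ

theorem jt_nonneg {n : ℕ} {π : Fin k → ℝ} {M : Fin k → Fin k → ℝ} (hπ : ∀ i, 0 ≤ π i)
    (hM : ∀ i j, 0 ≤ M i j) (G : SimpleGraph (Fin n)) (σ : Fin n → Fin k) : 0 ≤ jt π M G σ :=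
  mul_nonneg (prior_nonneg hπ σ) (lik_nonneg hM G σ)

theorem prior_update {n : ℕ} (π : Fin k → ℝ) (σ : Fin n → Fin k) (u : Fin n) (i : Fin k) :
    prior π (Function.update σ u i) = π i * ∏ v ∈ Finset.univ.erase u, π (σ v) := by
  unfold prior
  rw [← Finset.mul_prod_erase Finset.univ _ (Finset.mem_univ u), Function.update_self]
  congr 1
  refine Finset.prod_congr rfl fun v hv => ?_
  rw [Function.update_of_ne (Finset.mem_erase.1 hv).1]

/-- Given the graph and the labels of all other vertices, an isolated vertex has label `j` with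
probability at most `π j * exp (2 * C)`. -/
theorem jt_update {n : ℕ} {π : Fin k → ℝ} {M : Fin k → Fin k → ℝ} (hπ : ∀ i, 0 ≤ π i)
    (hs : ∑ i, π i = 1) (hsym : ∀ i j, M i j = M j i)
    (hM : ∀ i j, 0 ≤ M i j) {C : ℝ} (hC : ∀ i j, M i j ≤ C) (hC0 : 0 ≤ C) (hn : 2 * C ≤ n)
    (hn0 : 0 < n)
    (G : SimpleGraph (Fin n)) (u : Fin n) (hu : Iso G u) (σ : Fin n → Fin k) (j : Fin k) :
    jt π M G (Function.update σ u j) ≤
      (π j * Real.exp (2 * C)) * ∑ i, jt π M G (Function.update σ u i) := by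
  set P : ℝ := ∏ v ∈ Finset.univ.erase u, π (σ v) with hP
  have hP0 : 0 ≤ P := Finset.prod_nonneg fun _ _ => hπ _
  have h1 : ∀ i, jt π M G (Function.update σ u i) = π i * P * lik M G (Function.update σ u i) := by
    intro i
    unfold jt
    rw [prior_update]
  have h2 : P * lik M G (Function.update σ u j) ≤
      Real.exp (2 * C) * ∑ i, jt π M G (Function.update σ u i) := by
    calc P * lik M G (Function.update σ u j)
        = ∑ i, π i * (P * lik M G (Function.update σ u j)) := by
          rw [← Finset.sum_mul, hs, one_mul]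
      _ ≤ ∑ i, π i * (P * (Real.exp (2 * C) * lik M G (Function.update σ u i))) := by
          refine Finset.sum_le_sum fun i _ => ?_
          refine mul_le_mul_of_nonneg_left (mul_le_mul_of_nonneg_left ?_ hP0) (hπ i)
          exact lik_ratio hsym hM hC hC0 hn hn0 G u hu σ i j
      _ = _ := by
          rw [Finset.mul_sum]
          refine Finset.sum_congr rfl fun i _ => ?_
          rw [h1 i]
          ring
  rw [h1 j]
  calc π j * P * lik M G (Function.update σ u j) = π j * (P * lik M G (Function.update σ u j)) := by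
        ring
    _ ≤ π j * (Real.exp (2 * C) * ∑ i, jt π M G (Function.update σ u i)) :=
        mul_le_mul_of_nonneg_left h2 (hπ j)
    _ = _ := by ring

/-- Resampling one coordinate. -/
theorem sum_update {n : ℕ} (u : Fin n) (F : (Fin n → Fin k) → ℝ) :
    ∑ σ : Fin n → Fin k, ∑ i, F (Function.update σ u i) = k * ∑ σ : Fin n → Fin k, F σ := by
  have h : ∑ x : (Fin n → Fin k) × Fin k, F (Function.update x.1 u x.2) =
      ∑ x : (Fin n → Fin k) × Fin k, F x.1 := by
    refine Finset.sum_nbij' (fun x => (Function.update x.1 u x.2, x.1 u))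
      (fun x => (Function.update x.1 u x.2, x.1 u)) ?_ ?_ ?_ ?_ ?_
    · intro x _; exact Finset.mem_univ _
    · intro x _; exact Finset.mem_univ _
    · intro x _; simp
    · intro x _; simp
    · intro x _; rfl
  rw [Fintype.sum_prod_type, Fintype.sum_prod_type] at h
  rw [h]
  simp [Finset.mul_sum]

open Classical in
/-- Exponential moment of the number of vertices with label `j` in a set of isolated vertices. -/
theorem exp_moment {n : ℕ} {π : Fin k → ℝ} {M : Fin k → Fin k → ℝ} (hπ : ∀ i, 0 ≤ π i)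
    (hs : ∑ i, π i = 1) (hsym : ∀ i j, M i j = M j i)
    (hM : ∀ i j, 0 ≤ M i j) {C : ℝ} (hC : ∀ i j, M i j ≤ C) (hC0 : 0 ≤ C) (hn : 2 * C ≤ n)
    (hn0 : 0 < n) (hk : 0 < k) (G : SimpleGraph (Fin n)) (j : Fin k) {z : ℝ} (hz : 1 ≤ z)
    (A : Finset (Fin n)) (hA : ∀ u ∈ A, Iso G u) :
    ∑ σ : Fin n → Fin k, jt π M G σ * z ^ (A.filter (fun v => σ v = j)).card ≤
      (1 + (z - 1) * (π j * Real.exp (2 * C))) ^ A.card * ∑ σ : Fin n → Fin k, jt π M G σ := by
  induction A using Finset.induction_on with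
  | empty => simp
  | insert u A huA ih =>
    have ih' := ih (fun v hv => hA v (Finset.mem_insert_of_mem hv))
    set p : ℝ := π j * Real.exp (2 * C) with hp
    have hp0 : 0 ≤ p := mul_nonneg (hπ j) (Real.exp_pos _).le
    have hkR : (0 : ℝ) < k := by exact_mod_cast hk
    set w : (Fin n → Fin k) → ℝ := fun σ => z ^ (A.filter (fun v => σ v = j)).card with hw
    have hw0 : ∀ σ, 0 ≤ w σ := fun σ => pow_nonneg (by linarith) _
    have hwu : ∀ σ i, w (Function.update σ u i) = w σ := by
      intro σ i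
      have : A.filter (fun v => Function.update σ u i v = j) = A.filter (fun v => σ v = j) := by
        refine Finset.filter_congr fun v hv => ?_
        have : v ≠ u := fun h => huA (h ▸ hv)
        rw [Function.update_of_ne this]
      simp only [hw]
      rw [this]
    have h1 : ∀ σ : Fin n → Fin k, z ^ ((insert u A).filter (fun v => σ v = j)).card =
        w σ + (z - 1) * (if σ u = j then w σ else 0) := by
      intro σ
      rw [Finset.filter_insert]
      split_ifs with h
      · rw [Finset.card_insert_of_notMem (by simp [huA]), pow_succ]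
        simp only [hw]
        ring
      · simp only [hw]
        ring
    have h2 : ∑ σ : Fin n → Fin k, jt π M G σ * (if σ u = j then w σ else 0) ≤
        p * ∑ σ : Fin n → Fin k, jt π M G σ * w σ := by
      have h3 := sum_update u (fun σ => jt π M G σ * (if σ u = j then w σ else 0))
      have h4 := sum_update u (fun σ => jt π M G σ * w σ)
      have h5 : ∑ σ : Fin n → Fin k, ∑ i, jt π M G (Function.update σ u i) *
          (if Function.update σ u i u = j then w (Function.update σ u i) else 0) ≤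
          p * ∑ σ : Fin n → Fin k, ∑ i, jt π M G (Function.update σ u i) *
            w (Function.update σ u i) := by
        rw [Finset.mul_sum]
        refine Finset.sum_le_sum fun σ _ => ?_
        have h6 : ∑ i, jt π M G (Function.update σ u i) *
            (if Function.update σ u i u = j then w (Function.update σ u i) else 0) =
            jt π M G (Function.update σ u j) * w σ := by
          rw [Finset.sum_eq_single j]
          · rw [Function.update_self, if_pos rfl, hwu]
          · intro i _ hij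
            rw [Function.update_self, if_neg hij, mul_zero]
          · intro h; exact absurd (Finset.mem_univ _) h
        have h7 : ∑ i, jt π M G (Function.update σ u i) * w (Function.update σ u i) =
            (∑ i, jt π M G (Function.update σ u i)) * w σ := by
          rw [Finset.sum_mul]
          refine Finset.sum_congr rfl fun i _ => ?_
          rw [hwu]
        rw [h6, h7, ← mul_assoc]
        refine mul_le_mul_of_nonneg_right ?_ (hw0 σ)
        exact jt_update hπ hs hsym hM hC hC0 hn hn0 G u (hA u (Finset.mem_insert_self _ _)) σ j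
      rw [h3, h4] at h5
      have h6 : (k : ℝ) * ∑ σ : Fin n → Fin k, jt π M G σ * (if σ u = j then w σ else 0) ≤
          k * (p * ∑ σ : Fin n → Fin k, jt π M G σ * w σ) := by
        calc _ ≤ p * (k * ∑ σ : Fin n → Fin k, jt π M G σ * w σ) := h5
          _ = _ := by ring
      exact le_of_mul_le_mul_left h6 hkR
    have h8 : ∑ σ : Fin n → Fin k, jt π M G σ *
        z ^ ((insert u A).filter (fun v => σ v = j)).card =
        ∑ σ : Fin n → Fin k, jt π M G σ * w σ +
          (z - 1) * ∑ σ : Fin n → Fin k, jt π M G σ * (if σ u = j then w σ else 0) := by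
      rw [Finset.mul_sum, ← Finset.sum_add_distrib]
      refine Finset.sum_congr rfl fun σ _ => ?_
      rw [h1 σ]
      ring
    rw [h8, Finset.card_insert_of_notMem huA]
    have h9 : 0 ≤ 1 + (z - 1) * p := by
      have := mul_nonneg (sub_nonneg.2 hz) hp0
      linarith
    calc ∑ σ : Fin n → Fin k, jt π M G σ * w σ +
          (z - 1) * ∑ σ : Fin n → Fin k, jt π M G σ * (if σ u = j then w σ else 0)
        ≤ ∑ σ : Fin n → Fin k, jt π M G σ * w σ +
          (z - 1) * (p * ∑ σ : Fin n → Fin k, jt π M G σ * w σ) := by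
          have := mul_le_mul_of_nonneg_left h2 (sub_nonneg.2 hz)
          linarith
      _ = (1 + (z - 1) * p) * ∑ σ : Fin n → Fin k, jt π M G σ * w σ := by ring
      _ ≤ (1 + (z - 1) * p) * ((1 + (z - 1) * p) ^ A.card * ∑ σ : Fin n → Fin k, jt π M G σ) :=
          mul_le_mul_of_nonneg_left ih' h9
      _ = _ := by ring

open Classical in
/-- Law of large numbers for the labels of the vertices in a set of isolated vertices which is
chosen as a function of the graph. -/
theorem prob_label_iso {n : ℕ} {π : Fin k → ℝ} {M : Fin k → Fin k → ℝ} (hπ : ∀ i, 0 ≤ π i)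
    (hs : ∑ i, π i = 1) (hsym : ∀ i j, M i j = M j i)
    (hM : ∀ i j, 0 ≤ M i j) {C : ℝ} (hC : ∀ i j, M i j ≤ C) (hC0 : 0 ≤ C) (hC1 : C ≤ 1 / 4)
    (hn0 : 0 < n) (hk : 0 < k) (j : Fin k)
    (A : SimpleGraph (Fin n) → Finset (Fin n)) (hA : ∀ G, ∀ u ∈ A G, Iso G u) {δ : ℝ}
    (hδ0 : 0 < δ) (hδ1 : δ ≤ 1) :
    prob π M n (fun σ G => (π j * Real.exp (2 * C)) * (A G).card + δ * n ≤
      (((A G).filter (fun v => σ v = j)).card : ℝ)) ≤ Real.exp (-(δ ^ 2 / 8 * n)) := by
  have hn' : (0 : ℝ) < n := by exact_mod_cast hn0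
  have hn1 : (1 : ℝ) ≤ n := by exact_mod_cast hn0
  have hn : 2 * C ≤ n := by linarith
  set p : ℝ := π j * Real.exp (2 * C) with hp
  have hp0 : 0 ≤ p := mul_nonneg (hπ j) (Real.exp_pos _).le
  have hπ1 : π j ≤ 1 := by
    rw [← hs]
    exact Finset.single_le_sum (fun i _ => hπ i) (Finset.mem_univ j)
  have hexp2 : Real.exp (2 * C) ≤ 2 := by
    have h1 := Real.abs_exp_sub_one_sub_id_le (x := 2 * C) (by rw [abs_le]; constructor <;> linarith)
    have h2 := (abs_le.1 h1).2
    nlinarith
  have hp2 : p ≤ 2 := by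
    have := mul_le_mul hπ1 hexp2 (Real.exp_pos _).le zero_le_one
    linarith
  set t : ℝ := δ / 4 with ht
  have ht0 : 0 < t := by positivity
  have ht1 : t ≤ 1 := by linarith
  set z : ℝ := Real.exp t with hz
  have hz1 : 1 ≤ z := Real.one_le_exp ht0.le
  have hz2 : z - 1 ≤ t + t ^ 2 := by
    have h1 := Real.abs_exp_sub_one_sub_id_le (x := t) (by rw [abs_le]; constructor <;> linarith)
    have h2 := (abs_le.1 h1).2
    rw [hz]
    linarith
  have key : ∀ G : SimpleGraph (Fin n), ∑ σ : Fin n → Fin k,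
      (if p * (A G).card + δ * n ≤ (((A G).filter (fun v => σ v = j)).card : ℝ) then
        prior π σ * lik M G σ else 0) ≤
      Real.exp (-(δ ^ 2 / 8 * n)) * ∑ σ : Fin n → Fin k, jt π M G σ := by
    intro G
    have hcard : ((A G).card : ℝ) ≤ n := by
      have : (A G).card ≤ Fintype.card (Fin n) := Finset.card_le_univ _
      rw [Fintype.card_fin] at this
      exact_mod_cast this
    have hcard0 : (0 : ℝ) ≤ (A G).card := Nat.cast_nonneg _
    have h1 := exp_moment hπ hs hsym hM hC hC0 hn hn0 hk G j hz1 (A G) (hA G)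
    have hJ : 0 ≤ ∑ σ : Fin n → Fin k, jt π M G σ :=
      Finset.sum_nonneg fun σ _ => jt_nonneg hπ hM G σ
    set E : ℝ := Real.exp (-(t * (p * (A G).card + δ * n))) with hE
    have h2 : ∑ σ : Fin n → Fin k,
      (if p * (A G).card + δ * n ≤ (((A G).filter (fun v => σ v = j)).card : ℝ) then
        prior π σ * lik M G σ else 0) ≤
        E * ∑ σ : Fin n → Fin k, jt π M G σ * z ^ ((A G).filter (fun v => σ v = j)).card := by
      rw [Finset.mul_sum]
      refine Finset.sum_le_sum fun σ _ => ?_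
      have h3 := jt_nonneg hπ hM G σ
      split_ifs with h
      · have h4 : 1 ≤ E * z ^ ((A G).filter (fun v => σ v = j)).card := by
          rw [hE, hz, ← Real.exp_nat_mul, ← Real.exp_add]
          refine Real.one_le_exp ?_
          have := mul_le_mul_of_nonneg_left h ht0.le
          linarith
        calc prior π σ * lik M G σ = jt π M G σ * 1 := by rw [mul_one]; rfl
          _ ≤ jt π M G σ * (E * z ^ ((A G).filter (fun v => σ v = j)).card) :=
            mul_le_mul_of_nonneg_left h4 h3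
          _ = _ := by ring
      · have : 0 ≤ z ^ ((A G).filter (fun v => σ v = j)).card := pow_nonneg (by linarith) _
        positivity
    have h3 : E * (1 + (z - 1) * p) ^ (A G).card ≤ Real.exp (-(δ ^ 2 / 8 * n)) := by
      have h4 : (1 + (z - 1) * p) ^ (A G).card ≤ Real.exp ((A G).card * ((t + t ^ 2) * p)) := by
        rw [Real.exp_nat_mul]
        have h6 := mul_le_mul_of_nonneg_right hz2 hp0
        have h7 := mul_nonneg (sub_nonneg.2 hz1) hp0
        refine pow_le_pow_left₀ (by linarith) ?_ _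
        have := Real.add_one_le_exp ((t + t ^ 2) * p)
        linarith
      calc E * (1 + (z - 1) * p) ^ (A G).card ≤
          E * Real.exp ((A G).card * ((t + t ^ 2) * p)) := by gcongr
        _ = Real.exp (-(t * (p * (A G).card + δ * n)) + (A G).card * ((t + t ^ 2) * p)) := by
          rw [hE, Real.exp_add]
        _ ≤ Real.exp (-(δ ^ 2 / 8 * n)) := by
          rw [Real.exp_le_exp]
          have h5 : p * (A G).card ≤ 2 * n := by nlinarith
          have h6 : t ^ 2 * (p * (A G).card) ≤ t ^ 2 * (2 * n) := by gcongr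
          have h7 : δ = 4 * t := by rw [ht]; ring
          rw [h7]
          nlinarith
    calc _ ≤ E * ∑ σ : Fin n → Fin k, jt π M G σ * z ^ ((A G).filter (fun v => σ v = j)).card := h2
      _ ≤ E * ((1 + (z - 1) * p) ^ (A G).card * ∑ σ : Fin n → Fin k, jt π M G σ) := by
        gcongr
      _ = (E * (1 + (z - 1) * p) ^ (A G).card) * ∑ σ : Fin n → Fin k, jt π M G σ := by ring
      _ ≤ _ := by gcongr
  unfold prob
  rw [Finset.sum_comm]
  calc ∑ G : SimpleGraph (Fin n), ∑ σ : Fin n → Fin k,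
      (if p * (A G).card + δ * n ≤ (((A G).filter (fun v => σ v = j)).card : ℝ) then
        prior π σ * lik M G σ else 0)
      ≤ ∑ G : SimpleGraph (Fin n), Real.exp (-(δ ^ 2 / 8 * n)) *
          ∑ σ : Fin n → Fin k, jt π M G σ := Finset.sum_le_sum fun G _ => key G
    _ = Real.exp (-(δ ^ 2 / 8 * n)) := by
      rw [← Finset.mul_sum, Finset.sum_comm]
      have : ∑ σ : Fin n → Fin k, ∑ G : SimpleGraph (Fin n), jt π M G σ = 1 := by
        rw [← sum_prior (n := n) hs]
        refine Finset.sum_congr rfl fun σ _ => ?_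
        unfold jt
        rw [← Finset.mul_sum, sum_lik, mul_one]
      rw [this, mul_one]

theorem prob_exists {n : ℕ} {π : Fin k → ℝ} {M : Fin k → Fin k → ℝ} (hπ : ∀ i, 0 ≤ π i)
    (hM : ∀ i j, 0 ≤ M i j) {ι : Type} [Fintype ι]
    (E : ι → (Fin n → Fin k) → SimpleGraph (Fin n) → Prop) :
    prob π M n (fun σ G => ∃ i, E i σ G) ≤ ∑ i, prob π M n (E i) := by
  classical
  have e : ∑ i, prob π M n (E i) = ∑ σ : Fin n → Fin k, ∑ G : SimpleGraph (Fin n),
      ∑ i, (if E i σ G then prior π σ * lik M G σ else 0) := by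
    unfold prob
    rw [Finset.sum_comm]
    refine Finset.sum_congr rfl fun σ _ => ?_
    rw [Finset.sum_comm]
  rw [e]
  unfold prob
  refine Finset.sum_le_sum fun σ _ => Finset.sum_le_sum fun G _ => ?_
  have h1 := mul_nonneg (prior_nonneg hπ σ) (lik_nonneg hM G σ)
  have h2 : ∀ i, (0 : ℝ) ≤ (if E i σ G then prior π σ * lik M G σ else 0) := by
    intro i
    split_ifs
    · exact h1
    · exact le_rfl
  split_ifs with h
  · obtain ⟨i, hi⟩ := h
    have h3 := Finset.single_le_sum (f := fun i => if E i σ G then prior π σ * lik M G σ else 0)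
      (fun i _ => h2 i) (Finset.mem_univ i)
    simp only [if_pos hi] at h3
    exact h3
  · exact Finset.sum_nonneg fun i _ => h2 i

/-! ### The good event -/

/-- The bad event: a law of large numbers for the labels or for the isolated vertices fails. -/
def Bad (π : Fin k → ℝ) (M : Fin k → Fin k → ℝ) (δ : ℝ) {n : ℕ} (σ : Fin n → Fin k)
    (G : SimpleGraph (Fin n)) : Prop :=
  (∃ i, δ * n ≤ |(cnt σ i : ℝ) - π i * n|) ∨
  (∃ i, δ * n ≤ |isoN G (Finset.univ.filter (fun v => σ v = i)) -
      ∑ u ∈ Finset.univ.filter (fun v => σ v = i), isoP M σ u|)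

theorem prob_bad {π : Fin k → ℝ} {M : Fin k → Fin k → ℝ} (hIM : IsModel π M) {C : ℝ}
    (hC : ∀ i j, M i j ≤ C) (hC0 : 0 ≤ C) {n : ℕ} (hn : 0 < n) {δ : ℝ} (hδ : 0 < δ) :
    prob π M n (fun σ G => Bad π M δ σ G) ≤ (k * (2 + C) / δ ^ 2) / n := by
  have hπ : ∀ i, 0 ≤ π i := fun i => (hIM.pos i).le
  have hn' : (0 : ℝ) < n := by exact_mod_cast hn
  refine (prob_or hπ hIM.nonneg _ _).trans ?_
  have h1 := prob_exists (n := n) (π := π) (M := M) hπ hIM.nonneg
    (fun (i : Fin k) σ _ => δ * n ≤ |(cnt σ i : ℝ) - π i * n|)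
  have h2 := prob_exists (n := n) (π := π) (M := M) hπ hIM.nonneg
    (fun (i : Fin k) σ G => δ * n ≤ |isoN G (Finset.univ.filter (fun v => σ v = i)) -
      ∑ u ∈ Finset.univ.filter (fun v => σ v = i), isoP M σ u|)
  have h3 : ∑ i : Fin k, prob π M n (fun σ _ => δ * n ≤ |(cnt σ i : ℝ) - π i * n|) ≤
      k * (1 / (δ ^ 2 * n)) := by
    refine (Finset.sum_le_sum fun i _ => cheb_label hn hπ hIM.sum hIM.nonneg i hδ).trans ?_
    simp
  have h4 : ∑ i : Fin k, prob π M n (fun σ G => δ * n ≤
      |isoN G (Finset.univ.filter (fun v => σ v = i)) -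
      ∑ u ∈ Finset.univ.filter (fun v => σ v = i), isoP M σ u|) ≤
      k * ((1 + C) / (δ ^ 2 * n)) := by
    refine (Finset.sum_le_sum fun i _ => cheb_iso hn hπ hIM.sum hIM.nonneg hC hC0 i hδ).trans ?_
    simp
  have h5 : (k * (2 + C) / δ ^ 2) / n = k * (1 / (δ ^ 2 * n)) + k * ((1 + C) / (δ ^ 2 * n)) := by
    field_simp
    ring
  rw [h5]
  exact add_le_add (h1.trans h3) (h2.trans h4)

theorem cnt_le' {n : ℕ} (σ : Fin n → Fin k) (i : Fin k) : (cnt σ i : ℝ) ≤ n := by
  have h5 : cnt σ i ≤ Fintype.card (Fin n) := Finset.card_le_univ _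
  rw [Fintype.card_fin] at h5
  exact_mod_cast h5

theorem sum_cnt {n : ℕ} (σ : Fin n → Fin k) : ∑ i, (cnt σ i : ℝ) = n := by
  have h := Finset.card_eq_sum_card_fiberwise (s := (Finset.univ : Finset (Fin n)))
    (t := (Finset.univ : Finset (Fin k))) (f := σ) (fun _ _ => Finset.mem_coe.2 (Finset.mem_univ _))
  rw [Finset.card_univ, Fintype.card_fin] at h
  unfold cnt
  exact_mod_cast h.symm

/-- Most vertices are isolated when the connectivities are small. -/
theorem iso_lower {π : Fin k → ℝ} {M : Fin k → Fin k → ℝ} (hIM : IsModel π M) {n : ℕ} (hn : 0 < n)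
    {δ B : ℝ} (hB0 : 0 ≤ B) {σ : Fin n → Fin k} {G : SimpleGraph (Fin n)}
    (h : ¬ Bad π M δ σ G) (i : Fin k) (hB : ∀ j, M i j ≤ B) :
    (cnt σ i : ℝ) - isoN G (Finset.univ.filter (fun v => σ v = i)) ≤ B * cnt σ i + δ * n := by
  have hn' : (0 : ℝ) < n := by exact_mod_cast hn
  unfold Bad at h
  push Not at h
  have h3 := h.2 i
  rw [abs_lt] at h3
  have hsum : (1 - B) * cnt σ i ≤
      ∑ u ∈ Finset.univ.filter (fun v => σ v = i), isoP M σ u := by
    have : ∀ u ∈ Finset.univ.filter (fun v => σ v = i), (1 - B) ≤ isoP M σ u := by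
      intro u hu
      have hu0 : σ u = i := (Finset.mem_filter.1 hu).2
      rw [isoP_eq hIM.symm, hu0]
      set q : ℝ := min 1 (B / n) with hq
      have h5 : q ≤ B / n := min_le_right _ _
      have h6 : q ≤ 1 := min_le_left _ _
      have h9 : 0 ≤ q := le_min zero_le_one (by positivity)
      have hfac : ∀ v ∈ Finset.univ.erase u, 1 - q ≤ 1 - edgeProb M n i (σ v) := by
        intro v _
        have : edgeProb M n i (σ v) ≤ q := by
          refine min_le_min le_rfl ?_
          have h7 := hB (σ v)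
          gcongr
        linarith
      have h10 : (1 - q) ^ (Finset.univ.erase u).card ≤
          ∏ v ∈ Finset.univ.erase u, (1 - edgeProb M n i (σ v)) := by
        rw [← Finset.prod_const]
        exact Finset.prod_le_prod (fun v _ => by linarith) hfac
      refine le_trans ?_ h10
      have h7 := one_add_mul_le_pow (a := -q) (by linarith) ((Finset.univ.erase u).card)
      rw [← sub_eq_add_neg 1 q] at h7
      refine le_trans ?_ h7
      have h8 : ((Finset.univ.erase u).card : ℝ) ≤ n := by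
        have : (Finset.univ.erase u).card ≤ Fintype.card (Fin n) := Finset.card_le_univ _
        rw [Fintype.card_fin] at this
        exact_mod_cast this
      have h11 : ((Finset.univ.erase u).card : ℝ) * q ≤ n * (B / n) := by
        gcongr
      have h12 : (n : ℝ) * (B / n) = B := by field_simp
      linarith
    have h5 := Finset.card_nsmul_le_sum _ _ _ this
    rw [nsmul_eq_mul] at h5
    unfold cnt
    linarith
  linarith [h3.1]

/-- A positive fraction of the vertices with label `i` are not isolated. -/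
theorem noniso_lower {π : Fin k → ℝ} {M : Fin k → Fin k → ℝ} (hIM : IsModel π M) {n : ℕ}
    (hn : 0 < n)
    {δ B p : ℝ} (hB0 : 0 ≤ B) (hB1 : B ≤ 1 / 4) {σ : Fin n → Fin k} {G : SimpleGraph (Fin n)}
    (h : ¬ Bad π M δ σ G) (i : Fin k) (hB : B ≤ M i i) (hp : p ≤ π i) (hpδ : 2 * δ ≤ p)
    (hnδ : 1 ≤ δ * n) :
    3 / 4 * B * (p - 2 * δ) ^ 2 * n - δ * n ≤
      (cnt σ i : ℝ) - isoN G (Finset.univ.filter (fun v => σ v = i)) := by
  have hn' : (0 : ℝ) < n := by exact_mod_cast hn
  have hn1 : (1 : ℝ) ≤ n := by exact_mod_cast hn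
  have hc := cnt_le' σ i
  unfold Bad at h
  push Not at h
  have h3 := h.2 i
  have h1 := h.1 i
  rw [abs_lt] at h3 h1
  have hpn : p * n ≤ π i * n := by gcongr
  have hc1 : (p - δ) * n ≤ cnt σ i := by linarith [h1.1]
  set y : ℝ := B * ((cnt σ i : ℝ) - 1) / n with hy
  have hδ : 0 < δ := by
    by_contra hcon
    have : δ * n ≤ 0 := mul_nonpos_of_nonpos_of_nonneg (not_lt.1 hcon) hn'.le
    linarith
  have hc2 : (p - 2 * δ) * n ≤ (cnt σ i : ℝ) - 1 := by
    have : (p - 2 * δ) * n = (p - δ) * n - δ * n := by ring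
    linarith
  have hc3 : 0 ≤ (cnt σ i : ℝ) - 1 := le_trans (mul_nonneg (by linarith) hn'.le) hc2
  have hy0 : 0 ≤ y := by positivity
  have hy1 : y ≤ B := by
    rw [hy, div_le_iff₀ hn']
    have : (cnt σ i : ℝ) - 1 ≤ n := by linarith
    gcongr
  have hy2 : B * (p - 2 * δ) ≤ y := by
    rw [hy, le_div_iff₀ hn', mul_assoc]
    gcongr
  have hsum : ∑ u ∈ Finset.univ.filter (fun v => σ v = i), isoP M σ u ≤
      (1 - 3 / 4 * y) * cnt σ i := by
    have : ∀ u ∈ Finset.univ.filter (fun v => σ v = i), isoP M σ u ≤ 1 - 3 / 4 * y := by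
      intro u hu
      have hu1 : σ u = i := (Finset.mem_filter.1 hu).2
      rw [isoP_eq hIM.symm, hu1]
      have hfac : ∀ v ∈ Finset.univ.erase u, (1 - edgeProb M n i (σ v)) ≤
          if σ v = i then Real.exp (-(B / n)) else 1 := by
        intro v _
        split_ifs with hv
        · have h5 : B / n ≤ edgeProb M n i (σ v) := by
            refine le_min ?_ ?_
            · rw [div_le_one hn']; linarith
            · rw [hv]
              gcongr
          have h6 := Real.add_one_le_exp (-(B / n))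
          linarith
        · linarith [edgeProb_nonneg hIM.nonneg n i (σ v)]
      have h5 : ∏ v ∈ Finset.univ.erase u, (1 - edgeProb M n i (σ v)) ≤
          ∏ v ∈ Finset.univ.erase u, (if σ v = i then Real.exp (-(B / n)) else 1) :=
        Finset.prod_le_prod (fun v _ => by linarith [edgeProb_le_one M n i (σ v)]) hfac
      rw [← Finset.prod_filter, Finset.prod_const] at h5
      have hcard : ((Finset.univ.erase u).filter (fun v => σ v = i)).card = cnt σ i - 1 := by
        have : (Finset.univ.erase u).filter (fun v => σ v = i) =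
            (Finset.univ.filter (fun v => σ v = i)).erase u := by
          ext v; simp [Finset.mem_filter, Finset.mem_erase]
        rw [this, Finset.card_erase_of_mem (by simpa using hu1), cnt]
      rw [hcard, ← Real.exp_nat_mul] at h5
      refine h5.trans ?_
      have hcp : 1 ≤ cnt σ i := by
        have : (1 : ℝ) ≤ cnt σ i := by linarith
        exact_mod_cast this
      have h6 : ((cnt σ i - 1 : ℕ) : ℝ) * -(B / n) = -y := by
        rw [Nat.cast_sub hcp, hy]
        push_cast
        field_simp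
      rw [h6]
      have h7 := Real.abs_exp_sub_one_sub_id_le (x := -y)
        (by rw [abs_le]; constructor <;> linarith)
      have h8 := (abs_le.1 h7).2
      nlinarith
    have h5 := Finset.sum_le_card_nsmul _ _ _ this
    rw [nsmul_eq_mul] at h5
    unfold cnt
    linarith
  have h6 : 3 / 4 * B * (p - 2 * δ) ^ 2 * n ≤ 3 / 4 * y * cnt σ i := by
    have h7 : (p - 2 * δ) * n ≤ cnt σ i := by linarith
    have h8 : 0 ≤ p - 2 * δ := by linarith
    calc 3 / 4 * B * (p - 2 * δ) ^ 2 * n = 3 / 4 * (B * (p - 2 * δ)) * ((p - 2 * δ) * n) := by ring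
      _ ≤ 3 / 4 * y * cnt σ i := by gcongr
  linarith [h3.2]

/-! ### Detection -/

open Classical in
/-- The estimator: isolated vertices are labelled `i₁` and the others `i₀`. -/
noncomputable def degEst (i₀ i₁ : Fin k) : Estimator k := fun _ G v => if Iso G v then i₁ else i₀

theorem le_overlap {n : ℕ} (s σ : Fin n → Fin k) :
    ((Finset.univ.filter (fun v => s v = σ v)).card : ℝ) / n ≤ overlap s σ := by
  unfold overlap
  exact le_ciSup (f := fun τ : Equiv.Perm (Fin k) =>
      ((Finset.univ.filter (fun v => τ (s v) = σ v)).card : ℝ) / n)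
      (Set.finite_range _).bddAbove (Equiv.refl (Fin k))

open Classical in
theorem degEst_good {π : Fin k → ℝ} {M : Fin k → Fin k → ℝ} (hIM : IsModel π M) {n : ℕ}
    (hn : 0 < n) {i₀ i₁ : Fin k}
    {δ B B' p ε : ℝ} (hB0 : 0 ≤ B) (hB1 : B ≤ 1 / 4) (hB : B ≤ M i₀ i₀) (hp : p ≤ π i₀)
    (hpδ : 2 * δ ≤ p) (hnδ : 1 ≤ δ * n) (hB'0 : 0 ≤ B') (hB' : ∀ j, M i₁ j ≤ B')
    (hdet : B' + 3 * δ + ε ≤ 3 / 4 * B * (p - 2 * δ) ^ 2)
    {σ : Fin n → Fin k} {G : SimpleGraph (Fin n)}
    (h : ¬ Bad π M δ σ G) : π i₁ + ε ≤ overlap (degEst i₀ i₁ n G) σ := by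
  have hn' : (0 : ℝ) < n := by exact_mod_cast hn
  have h0 := iso_lower hIM hn hB'0 h i₁ hB'
  have h1 := noniso_lower hIM hn hB0 hB1 h i₀ hB hp hpδ hnδ
  have hc := cnt_le' σ i₁
  have h2 : π i₁ * n - δ * n ≤ cnt σ i₁ := by
    unfold Bad at h
    push Not at h
    have := (abs_lt.1 (h.1 i₁)).1
    linarith
  refine le_trans ?_ (le_overlap _ _)
  rw [le_div_iff₀ hn']
  have h3 : isoN G (Finset.univ.filter (fun v => σ v = i₁)) =
      (((Finset.univ.filter (fun v => σ v = i₁)).filter (fun v => Iso G v)).card : ℝ) := by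
    rw [isoN, Finset.sum_boole]
  have h4 : isoN G (Finset.univ.filter (fun v => σ v = i₀)) =
      (((Finset.univ.filter (fun v => σ v = i₀)).filter (fun v => Iso G v)).card : ℝ) := by
    rw [isoN, Finset.sum_boole]
  have h5 : (cnt σ i₀ : ℝ) = (((Finset.univ.filter (fun v => σ v = i₀)).filter
      (fun v => Iso G v)).card : ℝ) +
      (((Finset.univ.filter (fun v => σ v = i₀)).filter (fun v => ¬ Iso G v)).card : ℝ) := by
    have := Finset.card_filter_add_card_filter_not (s := Finset.univ.filter (fun v => σ v = i₀))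
      (fun v => Iso G v)
    unfold cnt
    rw [← this]
    push_cast
    rfl
  have h6 : (((Finset.univ.filter (fun v => σ v = i₁)).filter (fun v => Iso G v)).card) +
      (((Finset.univ.filter (fun v => σ v = i₀)).filter (fun v => ¬ Iso G v)).card) ≤
      (Finset.univ.filter (fun v => degEst i₀ i₁ n G v = σ v)).card := by
    rw [← Finset.card_union_of_disjoint]
    · refine Finset.card_le_card fun v hv => ?_
      rw [Finset.mem_union] at hv
      simp only [Finset.mem_filter, Finset.mem_univ, true_and] at hv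
      refine Finset.mem_filter.2 ⟨Finset.mem_univ _, ?_⟩
      show (if Iso G v then i₁ else i₀) = σ v
      rcases hv with ⟨h7, h8⟩ | ⟨h7, h8⟩
      · rw [if_pos h8, h7]
      · rw [if_neg h8, h7]
    · rw [Finset.disjoint_left]
      intro v hv hv'
      simp only [Finset.mem_filter, Finset.mem_univ, true_and] at hv hv'
      exact hv'.2 hv.2
  have h7 : ((((Finset.univ.filter (fun v => σ v = i₁)).filter (fun v => Iso G v)).card : ℝ)) +
      (((Finset.univ.filter (fun v => σ v = i₀)).filter (fun v => ¬ Iso G v)).card : ℝ) ≤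
      ((Finset.univ.filter (fun v => degEst i₀ i₁ n G v = σ v)).card : ℝ) := by
    exact_mod_cast h6
  have h8 : B' * cnt σ i₁ ≤ B' * n := by gcongr
  have h9 : (B' + 3 * δ + ε) * n ≤ (3 / 4 * B * (p - 2 * δ) ^ 2) * n := by gcongr
  nlinarith

/-! ### Maximum likelihood -/

open Classical in
theorem iso_total {π : Fin k → ℝ} {M : Fin k → Fin k → ℝ} (hIM : IsModel π M) {n : ℕ} (hn : 0 < n)
    {δ C : ℝ} (hC0 : 0 ≤ C) (hC : ∀ i j, M i j ≤ C) {σ : Fin n → Fin k} {G : SimpleGraph (Fin n)}
    (h : ¬ Bad π M δ σ G) :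
    (((Finset.univ.filter (fun v : Fin n => ¬ Iso G v)).card : ℕ) : ℝ) ≤ (C + k * δ) * n := by
  classical
  have h1 : ∀ i, (((Finset.univ.filter (fun v => σ v = i)).filter
      (fun v => ¬ Iso G v)).card : ℝ) ≤ C * cnt σ i + δ * n := by
    intro i
    have h2 := iso_lower hIM hn hC0 h i (hC i)
    have h4 : isoN G (Finset.univ.filter (fun v => σ v = i)) =
        (((Finset.univ.filter (fun v => σ v = i)).filter (fun v => Iso G v)).card : ℝ) := by
      rw [isoN, Finset.sum_boole]
    have h5 : (cnt σ i : ℝ) = (((Finset.univ.filter (fun v => σ v = i)).filter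
        (fun v => Iso G v)).card : ℝ) +
        (((Finset.univ.filter (fun v => σ v = i)).filter (fun v => ¬ Iso G v)).card : ℝ) := by
      have := Finset.card_filter_add_card_filter_not (s := Finset.univ.filter (fun v => σ v = i))
        (fun v => Iso G v)
      unfold cnt
      rw [← this]
      push_cast
      rfl
    linarith
  have h2 := Finset.card_eq_sum_card_fiberwise
    (s := (Finset.univ : Finset (Fin n)).filter (fun v : Fin n => ¬ Iso G v))
    (t := (Finset.univ : Finset (Fin k))) (f := σ) (fun _ _ => Finset.mem_coe.2 (Finset.mem_univ _))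
  have h3 : (((Finset.univ.filter (fun v : Fin n => ¬ Iso G v)).card : ℕ) : ℝ) =
      ∑ i, (((Finset.univ.filter (fun v => σ v = i)).filter (fun v => ¬ Iso G v)).card : ℝ) := by
    have h4 : ∀ i : Fin k, ((Finset.univ.filter (fun v : Fin n => ¬ Iso G v)).filter
        (fun v => σ v = i)) = ((Finset.univ.filter (fun v => σ v = i)).filter
        (fun v => ¬ Iso G v)) := by
      intro i
      ext v
      simp [and_comm]
    simp only [h4] at h2
    exact_mod_cast h2
  have e : (((Finset.univ.filter (fun v : Fin n => ¬ Iso G v)).card : ℕ) : ℝ) ≤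
      ∑ i, (C * cnt σ i + δ * n) := by
    rw [h3]
    exact Finset.sum_le_sum fun i _ => h1 i
  refine e.trans (le_of_eq ?_)
  rw [Finset.sum_add_distrib, ← Finset.mul_sum, sum_cnt]
  simp
  ring

open Classical in
/-- A maximiser of the likelihood uses every label on a positive fraction of the vertices. -/
theorem ml_classes {π : Fin k → ℝ} {M : Fin k → Fin k → ℝ} (hIM : IsModel π M) {n : ℕ}
    {α β C ν : ℝ} (hα : 0 < α) (hαM : ∀ i, α ≤ M i i) (hβ : ∀ i j, i ≠ j → M i j ≤ β)
    (hβα : 2 * k * β ≤ α) (hC0 : 0 < C) (hC : ∀ i j, M i j ≤ C)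
    (hnu : ν * k < 1) (hn0 : 0 < n) (hn : 2 * C ≤ n) (hn2 : α + 2 * C ^ 2 ≤ α / (4 * k) * n)
    {G : SimpleGraph (Fin n)}
    (hiso : (((Finset.univ.filter (fun v : Fin n => ¬ Iso G v)).card : ℕ) : ℝ) ≤ ν * n)
    {s : Fin n → Fin k} (hpos : 0 < lik M G s)
    (hs : ∀ s' : Fin n → Fin k, lik M G s' ≤ lik M G s) (i : Fin k) :
    α / (4 * k * C) * n ≤ cnt s i := by
  have hn' : (0 : ℝ) < n := by exact_mod_cast hn0
  have hk2 := hIM.two_le
  have hk0 : (0 : ℝ) < k := by
    have : 0 < k := by omega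
    exact_mod_cast this
  -- the largest class
  obtain ⟨l, hl⟩ : ∃ l, (n : ℝ) / k ≤ cnt s l := by
    by_contra hcon
    push Not at hcon
    have h1 : ∑ l, (cnt s l : ℝ) < ∑ _l : Fin k, (n : ℝ) / k := by
      refine Finset.sum_lt_sum_of_nonempty ⟨⟨0, by omega⟩, Finset.mem_univ _⟩ fun l _ => hcon l
    rw [sum_cnt, Finset.sum_const, Finset.card_univ, Fintype.card_fin, nsmul_eq_mul] at h1
    have : (k : ℝ) * (n / k) = n := by field_simp
    linarith
  obtain ⟨u, hu1, hu2⟩ : ∃ u, Iso G u ∧ s u = l := by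
    by_contra hcon
    push Not at hcon
    have h1 : cnt s l ≤ (Finset.univ.filter (fun v : Fin n => ¬ Iso G v)).card := by
      refine Finset.card_le_card fun v hv => ?_
      rw [Finset.mem_filter] at hv ⊢
      exact ⟨hv.1, fun h => hcon v h hv.2⟩
    have h2 : (cnt s l : ℝ) ≤ (Finset.univ.filter (fun v : Fin n => ¬ Iso G v)).card := by
      exact_mod_cast h1
    have h3 : (n : ℝ) / k ≤ ν * n := hl.trans (h2.trans hiso)
    rw [div_le_iff₀ hk0] at h3
    nlinarith
  subst hu2
  have hD1 : α * (cnt s (s u) - 1) ≤ ∑ v ∈ Finset.univ.erase u, M (s u) (s v) := by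
    have e1 : α * (cnt s (s u) - 1) ≤
        ∑ v ∈ Finset.univ.erase u, (if s v = s u then α else 0) := by
      rw [← Finset.sum_filter, Finset.sum_const, nsmul_eq_mul]
      have hcard : ((Finset.univ.erase u).filter (fun v => s v = s u)).card = cnt s (s u) - 1 := by
        have : (Finset.univ.erase u).filter (fun v => s v = s u) =
            (Finset.univ.filter (fun v => s v = s u)).erase u := by
          ext v; simp [Finset.mem_filter, Finset.mem_erase]
        rw [this, Finset.card_erase_of_mem (by simp), cnt]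
      rw [hcard, mul_comm]
      have h9 : (cnt s (s u) : ℝ) ≤ ((cnt s (s u) - 1 : ℕ) : ℝ) + 1 := by
        have : cnt s (s u) ≤ (cnt s (s u) - 1) + 1 := by omega
        exact_mod_cast this
      have h10 : (cnt s (s u) : ℝ) - 1 ≤ ((cnt s (s u) - 1 : ℕ) : ℝ) := by linarith
      exact mul_le_mul_of_nonneg_right h10 hα.le
    refine e1.trans (Finset.sum_le_sum fun v _ => ?_)
    split_ifs with hv
    · rw [hv]; exact hαM _
    · exact hIM.nonneg _ _
  have hβ0 : 0 ≤ β := by
    obtain ⟨j, hj⟩ : ∃ j : Fin k, j ≠ i := by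
      have : Nontrivial (Fin k) := Fin.nontrivial_iff_two_le.2 hk2
      exact exists_ne i
    exact (hIM.nonneg j i).trans (hβ j i hj)
  have hD2 : ∑ v ∈ Finset.univ.erase u, M i (s v) ≤ C * cnt s i + β * n := by
    calc ∑ v ∈ Finset.univ.erase u, M i (s v)
        ≤ ∑ v : Fin n, M i (s v) :=
          Finset.sum_le_sum_of_subset_of_nonneg (Finset.erase_subset _ _)
            (fun v _ _ => hIM.nonneg _ _)
      _ ≤ ∑ v : Fin n, ((if s v = i then C else 0) + β) := by
          refine Finset.sum_le_sum fun v _ => ?_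
          split_ifs with hv
          · have := hC i (s v)
            linarith
          · have := hβ i (s v) (fun h' : i = s v => hv h'.symm)
            linarith
      _ = C * cnt s i + β * n := by
          rw [Finset.sum_add_distrib, ← Finset.sum_filter, Finset.sum_const, Finset.sum_const,
            nsmul_eq_mul, nsmul_eq_mul, Finset.card_univ, Fintype.card_fin, cnt]
          ring
  by_contra hcon
  push Not at hcon
  have h9 := lik_update hIM.symm hIM.nonneg hC hC0 hn G s u hu1 i (by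
    rw [Finset.sum_sub_distrib]
    have h10 : C * cnt s i < C * (α / (4 * k * C) * n) := by gcongr
    have h11 : C * (α / (4 * k * C) * n) = α / (4 * k) * n := by field_simp
    have h12 : β * n ≤ α / (2 * k) * n := by
      have : β ≤ α / (2 * k) := by
        rw [le_div_iff₀ (by positivity)]
        linarith
      gcongr
    have h13 : α * (n / k) ≤ α * cnt s (s u) := by gcongr
    have h14 : α * ((n : ℝ) / k) = α / (4 * k) * n + α / (4 * k) * n + α / (2 * k) * n := by
      field_simp
      ring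
    linarith) hpos
  exact absurd (hs (Function.update s u i)) (not_le.2 h9)

open Classical in
/-- The isolated vertices to which the labelling `s` gives the label `i`. -/
noncomputable def isoClass {n : ℕ} (G : SimpleGraph (Fin n)) (s : Fin n → Fin k) (i : Fin k) :
    Finset (Fin n) := Finset.univ.filter (fun v => Iso G v ∧ s v = i)

open Classical in
theorem ml_overlap {π : Fin k → ℝ} (hπ : ∀ i, 0 ≤ π i) (hsum : ∑ i, π i = 1)
    {n : ℕ} (hn0 : 0 < n) {i₀ i₁ : Fin k}
    {D C ν δ ξ : ℝ} (hmax : ∀ i, π i ≤ π i₁) (hD : π i₀ + D ≤ π i₁) (hD0 : 0 ≤ D)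
    (hC0 : 0 ≤ C) (hC1 : C ≤ 1 / 4)
    {G : SimpleGraph (Fin n)} {s σ : Fin n → Fin k}
    (hiso : (((Finset.univ.filter (fun v : Fin n => ¬ Iso G v)).card : ℕ) : ℝ) ≤ ν * n)
    (hξ : ∀ i, ξ * n ≤ cnt s i)
    (hlab : ∀ i j, (((isoClass G s i).filter (fun v => σ v = j)).card : ℝ) ≤
      (π j * Real.exp (2 * C)) * (isoClass G s i).card + δ * n) :
    overlap s σ ≤ π i₁ - (D * ξ - ν - k * δ - 4 * C) := by
  have hn' : (0 : ℝ) < n := by exact_mod_cast hn0
  unfold overlap
  refine ciSup_le fun τ => ?_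
  rw [div_le_iff₀ hn']
  have hexp : Real.exp (2 * C) ≤ 1 + 4 * C := by
    have h1 := Real.abs_exp_sub_one_sub_id_le (x := 2 * C) (by rw [abs_le]; constructor <;> linarith)
    have h2 := (abs_le.1 h1).2
    nlinarith
  have h1 : (Finset.univ.filter (fun v => τ (s v) = σ v)).card ≤
      (Finset.univ.filter (fun v : Fin n => ¬ Iso G v)).card +
      ∑ i, ((isoClass G s i).filter (fun v => σ v = τ i)).card := by
    have hsub : Finset.univ.filter (fun v => τ (s v) = σ v) ⊆
        (Finset.univ.filter (fun v : Fin n => ¬ Iso G v)) ∪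
        (Finset.univ : Finset (Fin k)).biUnion
          (fun i => (isoClass G s i).filter (fun v => σ v = τ i)) := by
      intro v hv
      rw [Finset.mem_filter] at hv
      rw [Finset.mem_union, Finset.mem_biUnion]
      by_cases h : Iso G v
      · right
        refine ⟨s v, Finset.mem_univ _, ?_⟩
        rw [Finset.mem_filter, isoClass, Finset.mem_filter]
        exact ⟨⟨Finset.mem_univ _, h, rfl⟩, hv.2.symm⟩
      · left
        exact Finset.mem_filter.2 ⟨Finset.mem_univ _, h⟩
    refine (Finset.card_le_card hsub).trans ((Finset.card_union_le _ _).trans ?_)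
    exact Nat.add_le_add_left Finset.card_biUnion_le _
  have h2 : ((Finset.univ.filter (fun v => τ (s v) = σ v)).card : ℝ) ≤
      ((Finset.univ.filter (fun v : Fin n => ¬ Iso G v)).card : ℝ) +
      ∑ i, (((isoClass G s i).filter (fun v => σ v = τ i)).card : ℝ) := by
    exact_mod_cast h1
  have h3 : ∑ i, (((isoClass G s i).filter (fun v => σ v = τ i)).card : ℝ) ≤
      Real.exp (2 * C) * (∑ i, π (τ i) * cnt s i) + k * δ * n := by
    calc ∑ i, (((isoClass G s i).filter (fun v => σ v = τ i)).card : ℝ)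
        ≤ ∑ i, ((π (τ i) * Real.exp (2 * C)) * cnt s i + δ * n) := by
          refine Finset.sum_le_sum fun i _ => ?_
          refine (hlab i (τ i)).trans ?_
          have h4 : ((isoClass G s i).card : ℝ) ≤ cnt s i := by
            have : (isoClass G s i).card ≤ cnt s i := by
              refine Finset.card_le_card fun v hv => ?_
              rw [isoClass, Finset.mem_filter] at hv
              exact Finset.mem_filter.2 ⟨Finset.mem_univ _, hv.2.2⟩
            exact_mod_cast this
          have h5 : 0 ≤ π (τ i) * Real.exp (2 * C) := mul_nonneg (hπ _) (Real.exp_pos _).le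
          have := mul_le_mul_of_nonneg_left h4 h5
          linarith
      _ = _ := by
          rw [Finset.sum_add_distrib, Finset.mul_sum]
          congr 1
          · refine Finset.sum_congr rfl fun i _ => ?_
            ring
          · simp
            ring
  have h4 : ∑ i, π (τ i) * cnt s i ≤ π i₁ * n - D * (ξ * n) := by
    have h5 : ∀ i, π (τ i) * cnt s i ≤ π i₁ * cnt s i - (if i = τ.symm i₀ then D * cnt s i else 0) := by
      intro i
      have h6 : (0 : ℝ) ≤ cnt s i := Nat.cast_nonneg _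
      split_ifs with h
      · have h7 : τ i = i₀ := by rw [h, Equiv.apply_symm_apply]
        rw [h7]
        nlinarith
      · have := mul_le_mul_of_nonneg_right (hmax (τ i)) h6
        linarith
    refine (Finset.sum_le_sum fun i _ => h5 i).trans ?_
    rw [Finset.sum_sub_distrib, ← Finset.mul_sum, sum_cnt]
    simp only [Finset.sum_ite_eq', Finset.mem_univ, if_true]
    have := mul_le_mul_of_nonneg_left (hξ (τ.symm i₀)) hD0
    linarith
  have hX0 : 0 ≤ ∑ i, π (τ i) * cnt s i :=
    Finset.sum_nonneg fun i _ => mul_nonneg (hπ _) (Nat.cast_nonneg _)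
  have hX1 : ∑ i, π (τ i) * cnt s i ≤ n := by
    calc ∑ i, π (τ i) * cnt s i ≤ ∑ i, 1 * (cnt s i : ℝ) := by
          refine Finset.sum_le_sum fun i _ => ?_
          refine mul_le_mul_of_nonneg_right ?_ (Nat.cast_nonneg _)
          rw [← hsum]
          exact Finset.single_le_sum (fun j _ => hπ j) (Finset.mem_univ (τ i))
      _ = n := by simp only [one_mul]; exact sum_cnt s
  have h5 : Real.exp (2 * C) * (∑ i, π (τ i) * cnt s i) ≤
      (∑ i, π (τ i) * cnt s i) + 4 * C * n := by
    calc Real.exp (2 * C) * (∑ i, π (τ i) * cnt s i) ≤ (1 + 4 * C) * (∑ i, π (τ i) * cnt s i) := by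
          gcongr
      _ = (∑ i, π (τ i) * cnt s i) + 4 * C * (∑ i, π (τ i) * cnt s i) := by ring
      _ ≤ _ := by gcongr
  have h6 : (π i₁ - (D * ξ - ν - k * δ - 4 * C)) * n =
      ν * n + ((π i₁ * n - D * (ξ * n)) + 4 * C * n + k * δ * n) := by ring
  rw [h6]
  linarith

/-- The region of parameters in which detection is possible and maximum likelihood fails. -/
structure Region (π : Fin k → ℝ) (M : Fin k → Fin k → ℝ) (i₀ i₁ : Fin k)
    (D α β B B' C δ p ε c : ℝ) : Prop where
  model : IsModel π M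
  hmax : ∀ i, π i ≤ π i₁
  hD : π i₀ + D ≤ π i₁
  hD0 : 0 ≤ D
  hα : 0 < α
  hαM : ∀ i, α ≤ M i i
  hβ : ∀ i j, i ≠ j → M i j ≤ β
  hβα : 2 * k * β ≤ α
  hB0 : 0 ≤ B
  hB : B ≤ M i₀ i₀
  hB'0 : 0 ≤ B'
  hB' : ∀ j, M i₁ j ≤ B'
  hC0 : 0 < C
  hC1 : C ≤ 1 / 4
  hC : ∀ i j, M i j ≤ C
  hδ : 0 < δ
  hδ1 : δ ≤ 1
  hp : p ≤ π i₀
  hpδ : 2 * δ ≤ p
  hε : 0 < ε
  hdet : B' + 3 * δ + ε ≤ 3 / 4 * B * (p - 2 * δ) ^ 2
  hνk : (C + k * δ) * k < 1
  hc : 0 < c
  hfail : 5 * C + 2 * (k * δ) + c < D * (α / (4 * k * C))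

theorem Region.sup_eq {π : Fin k → ℝ} {M : Fin k → Fin k → ℝ} {i₀ i₁ : Fin k}
    {D α β B B' C δ p ε c : ℝ} (h : Region π M i₀ i₁ D α β B B' C δ p ε c) :
    ⨆ i, π i = π i₁ := by
  have : Nonempty (Fin k) := ⟨i₁⟩
  exact le_antisymm (ciSup_le h.hmax) (le_ciSup (Set.finite_range π).bddAbove i₁)

theorem Region.tendsto_bad {π : Fin k → ℝ} {M : Fin k → Fin k → ℝ} {i₀ i₁ : Fin k}
    {D α β B B' C δ p ε c : ℝ} (h : Region π M i₀ i₁ D α β B B' C δ p ε c) :
    Tendsto (fun n : ℕ => prob π M n (fun σ G => Bad π M δ σ G)) atTop (𝓝 0) := by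
  have h1 : Tendsto (fun n : ℕ => ((k * (2 + C) / δ ^ 2 : ℝ)) / n) atTop (𝓝 0) :=
    tendsto_const_div_atTop_nhds_zero_nat _
  refine squeeze_zero' (Eventually.of_forall fun n =>
    prob_nonneg (fun i => (h.model.pos i).le) h.model.nonneg _) ?_ h1
  filter_upwards [eventually_gt_atTop 0] with n hn
  exact prob_bad h.model h.hC h.hC0.le hn h.hδ

theorem Region.achieves {π : Fin k → ℝ} {M : Fin k → Fin k → ℝ} {i₀ i₁ : Fin k}
    {D α β B B' C δ p ε c : ℝ} (h : Region π M i₀ i₁ D α β B B' C δ p ε c) :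
    Achieves π M (degEst i₀ i₁) := by
  have hπ : ∀ i, 0 ≤ π i := fun i => (h.model.pos i).le
  refine ⟨ε, h.hε, ?_⟩
  have h1 : Tendsto (fun n : ℕ => 1 - prob π M n (fun σ G => Bad π M δ σ G)) atTop (𝓝 (1 - 0)) :=
    tendsto_const_nhds.sub h.tendsto_bad
  rw [sub_zero] at h1
  refine tendsto_of_tendsto_of_tendsto_of_le_of_le' h1 tendsto_const_nhds ?_
    (Eventually.of_forall fun n => prob_le_one hπ h.model.nonneg h.model.sum _)
  filter_upwards [eventually_ge_atTop ⌈1 / δ⌉₊, eventually_gt_atTop 0] with n hn hn0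
  have hnδ : 1 ≤ δ * n := by
    have h2 : 1 / δ ≤ n := (Nat.le_ceil _).trans (by exact_mod_cast hn)
    rw [div_le_iff₀ h.hδ] at h2
    linarith
  rw [prob_compl h.model.sum (fun σ G => (⨆ i, π i) + ε ≤ overlap (degEst i₀ i₁ n G) σ)]
  refine sub_le_sub_left (prob_mono hπ h.model.nonneg fun σ G _ h3 => ?_) 1
  by_contra hbad
  refine h3 ?_
  rw [h.sup_eq]
  have hB1 : B ≤ 1 / 4 := h.hB.trans ((h.hC _ _).trans h.hC1)
  exact degEst_good h.model hn0 h.hB0 hB1 h.hB h.hp h.hpδ hnδ h.hB'0 h.hB' h.hdet hbad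

open Classical in
theorem Region.ml_tendsto {π : Fin k → ℝ} {M : Fin k → Fin k → ℝ} {i₀ i₁ : Fin k}
    {D α β B B' C δ p ε c : ℝ} (h : Region π M i₀ i₁ D α β B B' C δ p ε c)
    {ml : Estimator k} (hml : IsML M ml) :
    Tendsto (fun n : ℕ => prob π M n (fun σ G => (⨆ i, π i) - c ≤ overlap (ml n G) σ))
      atTop (𝓝 0) := by
  have hπ : ∀ i, 0 ≤ π i := fun i => (h.model.pos i).le
  have hk0 : 0 < k := by have := h.model.two_le; omega
  have hlim : Tendsto (fun n : ℕ => prob π M n (fun σ G => Bad π M δ σ G) +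
      k * (k * Real.exp (-(δ ^ 2 / 8 * n)))) atTop (𝓝 (0 + k * (k * 0))) := by
    refine h.tendsto_bad.add (Tendsto.const_mul _ (Tendsto.const_mul _ ?_))
    refine Real.tendsto_exp_neg_atTop_nhds_zero.comp ?_
    have h8 : 0 < δ ^ 2 / 8 := by have := h.hδ; positivity
    exact Tendsto.const_mul_atTop h8 tendsto_natCast_atTop_atTop
  have e0 : (0 : ℝ) + k * (k * 0) = 0 := by ring
  rw [e0] at hlim
  refine squeeze_zero' (Eventually.of_forall fun n => prob_nonneg hπ h.model.nonneg _) ?_ hlim
  have hαk : 0 < α / (4 * k) := by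
    have := h.hα
    have : (0 : ℝ) < k := by exact_mod_cast hk0
    positivity
  filter_upwards [eventually_gt_atTop 0, eventually_ge_atTop ⌈(α + 2 * C ^ 2) / (α / (4 * k))⌉₊]
    with n hn0 hn2
  have hn' : (0 : ℝ) < n := by exact_mod_cast hn0
  have hn1 : (1 : ℝ) ≤ n := by exact_mod_cast hn0
  have hn2' : α + 2 * C ^ 2 ≤ α / (4 * k) * n := by
    have h2 : (α + 2 * C ^ 2) / (α / (4 * k)) ≤ n := (Nat.le_ceil _).trans (by exact_mod_cast hn2)
    rw [div_le_iff₀ hαk] at h2
    linarith
  have hn3 : 2 * C ≤ n := by linarith [h.hC1]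
  -- the label events
  have hE : prob π M n (fun σ G => ∃ i, ∃ j, (π j * Real.exp (2 * C)) *
      (isoClass G (ml n G) i).card + δ * n ≤
      (((isoClass G (ml n G) i).filter (fun v => σ v = j)).card : ℝ)) ≤
      k * (k * Real.exp (-(δ ^ 2 / 8 * n))) := by
    refine (prob_exists hπ h.model.nonneg _).trans ?_
    have h1 : ∀ i : Fin k, prob π M n (fun σ G => ∃ j, (π j * Real.exp (2 * C)) *
      (isoClass G (ml n G) i).card + δ * n ≤
      (((isoClass G (ml n G) i).filter (fun v => σ v = j)).card : ℝ)) ≤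
      k * Real.exp (-(δ ^ 2 / 8 * n)) := by
      intro i
      refine (prob_exists hπ h.model.nonneg _).trans ?_
      refine (Finset.sum_le_sum fun j _ => ?_).trans
        (le_of_eq (show ∑ _j : Fin k, Real.exp (-(δ ^ 2 / 8 * n)) = _ by simp))
      refine prob_label_iso hπ h.model.sum h.model.symm h.model.nonneg h.hC h.hC0.le h.hC1 hn0 hk0 j
        (fun G => isoClass G (ml n G) i) (fun G u hu => ?_) h.hδ h.hδ1
      exact (Finset.mem_filter.1 hu).2.1
    refine (Finset.sum_le_sum fun i _ => h1 i).trans (le_of_eq ?_)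
    simp
  refine le_trans ?_ (add_le_add (le_refl (prob π M n (fun σ G => Bad π M δ σ G))) hE)
  refine le_trans ?_ (prob_or hπ h.model.nonneg _ _)
  refine prob_mono hπ h.model.nonneg fun σ G hl h3 => ?_
  by_contra hcon
  push Not at hcon
  obtain ⟨hbad, hlab⟩ := hcon
  have hiso := iso_total h.model hn0 h.hC0.le h.hC hbad
  have hcl := ml_classes h.model h.hα h.hαM h.hβ h.hβα h.hC0 h.hC h.hνk hn0 hn3 hn2' hiso
    (lt_of_lt_of_le hl (hml n G σ)) (hml n G)
  have hov := ml_overlap hπ h.model.sum hn0 h.hmax h.hD h.hD0 h.hC0.le h.hC1 hiso hcl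
    (fun i j => (hlab i j).le)
  rw [h.sup_eq] at h3
  have := h.hfail
  linarith

theorem Region.ml_not_achieves {π : Fin k → ℝ} {M : Fin k → Fin k → ℝ} {i₀ i₁ : Fin k}
    {D α β B B' C δ p ε c : ℝ} (h : Region π M i₀ i₁ D α β B B' C δ p ε c)
    {ml : Estimator k} (hml : IsML M ml) : ¬ Achieves π M ml := by
  have hπ : ∀ i, 0 ≤ π i := fun i => (h.model.pos i).le
  rintro ⟨ε', hε, h1⟩
  have h2 : Tendsto (fun n : ℕ => prob π M n
      (fun σ G => (⨆ i, π i) + ε' ≤ overlap (ml n G) σ)) atTop (𝓝 0) := by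
    refine squeeze_zero' (Eventually.of_forall fun n => prob_nonneg hπ h.model.nonneg _) ?_
      (h.ml_tendsto hml)
    refine Eventually.of_forall fun n => ?_
    refine prob_mono hπ h.model.nonneg fun σ G _ h3 => ?_
    have hc := h.hc
    linarith
  exact zero_ne_one (tendsto_nhds_unique h2 h1)

/-! ### Existence of the region -/

/-- The connectivity matrix: `x` on the diagonal, but `y` at `(i₀, i₀)`, and `z` off the
diagonal. -/
noncomputable def conn (i₀ : Fin k) (x y z : ℝ) (i j : Fin k) : ℝ :=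
  if i = j then (if i = i₀ then y else x) else z

theorem conn_symm (i₀ : Fin k) (x y z : ℝ) (i j : Fin k) :
    conn i₀ x y z i j = conn i₀ x y z j i := by
  unfold conn
  by_cases h : i = j
  · subst h; rfl
  · rw [if_neg h, if_neg (fun h' => h h'.symm)]

theorem conn_diag (i₀ : Fin k) (x y z : ℝ) : conn i₀ x y z i₀ i₀ = y := by simp [conn]

theorem conn_diag' (i₀ : Fin k) (x y z : ℝ) {i : Fin k} (h : i ≠ i₀) :
    conn i₀ x y z i i = x := by simp [conn, h]

theorem conn_off (i₀ : Fin k) (x y z : ℝ) {i j : Fin k} (h : i ≠ j) :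
    conn i₀ x y z i j = z := by simp [conn, h]

theorem conn_le (i₀ : Fin k) {x y z : ℝ} (hx : x ≤ y) (hz : z ≤ y) (i j : Fin k) :
    conn i₀ x y z i j ≤ y := by
  unfold conn
  split_ifs <;> linarith

theorem conn_pos (i₀ : Fin k) {x y z : ℝ} (hx : 0 < x) (hy : 0 < y) (hz : 0 < z) (i j : Fin k) :
    0 < conn i₀ x y z i j := by
  unfold conn
  split_ifs <;> assumption

theorem num_det {x w p₀ : ℝ} (hp0 : 0 < p₀) (hw0 : 0 < w) (hx0 : 0 < x) (h3 : w * p₀ ^ 2 = 64 * x)
    (hxp : x ≤ p₀ / 64) :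
    2 * x + 3 * (x / 8) + x / 2 ≤ 3 / 4 * (w / 2) * (p₀ / 2 - 2 * (x / 8)) ^ 2 := by
  have h1 : 3 * p₀ / 8 ≤ p₀ / 2 - 2 * (x / 8) := by linarith
  have h2 : (3 * p₀ / 8) ^ 2 ≤ (p₀ / 2 - 2 * (x / 8)) ^ 2 :=
    pow_le_pow_left₀ (by positivity) h1 2
  have h4 : 3 / 4 * (w / 2) * (3 * p₀ / 8) ^ 2 ≤
      3 / 4 * (w / 2) * (p₀ / 2 - 2 * (x / 8)) ^ 2 := by gcongr
  have h5 : 3 / 4 * (w / 2) * (3 * p₀ / 8) ^ 2 = 27 / 8 * x := by
    have : 3 / 4 * (w / 2) * (3 * p₀ / 8) ^ 2 = 27 / 512 * (w * p₀ ^ 2) := by ring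
    rw [this, h3]
    ring
  linarith

theorem num_few {x A D₀ κ : ℝ} (hκ : 2 ≤ κ) (hx0 : 0 < x) (hA1 : 64 ≤ A) (hD1 : D₀ ≤ 1)
    (hxD : x * (1280 * κ ^ 2 * A ^ 2) ≤ D₀) : (2 * (x * A) + κ * (x / 8)) * κ < 1 := by
  have h0 : 0 < x * κ ^ 2 := by positivity
  have h1 : x * κ ^ 2 ≤ x * κ ^ 2 * A ^ 2 := by
    have h2 : 1 ≤ A ^ 2 := by nlinarith
    exact le_mul_of_one_le_right h0.le h2
  have h3 : x * A * κ ≤ x * κ ^ 2 * A ^ 2 := by
    have h4 : x * κ ^ 2 * A ^ 2 = (x * A * κ) * (κ * A) := by ring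
    rw [h4]
    have h5 : 1 ≤ κ * A := by nlinarith
    exact le_mul_of_one_le_right (by positivity) h5
  have h6 : x * (1280 * κ ^ 2 * A ^ 2) = 1280 * (x * κ ^ 2 * A ^ 2) := by ring
  have h7 : (2 * (x * A) + κ * (x / 8)) * κ = 2 * (x * A * κ) + x * κ ^ 2 / 8 := by ring
  rw [h7]
  linarith

theorem num_fail {x A D₀ κ : ℝ} (hκ : 2 ≤ κ) (hx0 : 0 < x) (hA1 : 64 ≤ A)
    (hD0 : 0 < D₀)
    (hxD : x * (1280 * κ ^ 2 * A ^ 2) ≤ D₀) :
    5 * (2 * (x * A)) + 2 * (κ * (x / 8)) + D₀ / (128 * κ * A) <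
      D₀ / 2 * (x / 2 / (4 * κ * (2 * (x * A)))) := by
  have hκ0 : 0 < κ := by linarith
  have hA0 : 0 < A := by linarith
  have h1 : D₀ / 2 * (x / 2 / (4 * κ * (2 * (x * A)))) = 4 * (D₀ / (128 * κ * A)) := by
    field_simp
    ring
  rw [h1]
  have h2 : 5 * (2 * (x * A)) ≤ D₀ / (128 * κ * A) := by
    rw [le_div_iff₀ (by positivity)]
    have h3 : 5 * (2 * (x * A)) * (128 * κ * A) * 1 ≤ 5 * (2 * (x * A)) * (128 * κ * A) * κ :=
      mul_le_mul_of_nonneg_left (by linarith) (by positivity)
    have h4 : 5 * (2 * (x * A)) * (128 * κ * A) * κ = x * (1280 * κ ^ 2 * A ^ 2) := by ring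
    linarith
  have h3 : 2 * (κ * (x / 8)) ≤ D₀ / (128 * κ * A) := by
    rw [le_div_iff₀ (by positivity)]
    have h4 : 2 * (κ * (x / 8)) * (128 * κ * A) = x * κ ^ 2 * A * 32 := by ring
    have h6 : x * (1280 * κ ^ 2 * A ^ 2) = x * κ ^ 2 * A * (1280 * A) := by ring
    have h5 : x * κ ^ 2 * A * 32 ≤ x * κ ^ 2 * A * (1280 * A) :=
      mul_le_mul_of_nonneg_left (by linarith) (by positivity)
    linarith
  have h4 : 0 < D₀ / (128 * κ * A) := by positivity
  linarith

theorem num_w {x A D₀ κ : ℝ} (hκ : 2 ≤ κ) (hx0 : 0 < x) (hA1 : 64 ≤ A)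
    (hxD : x * (1280 * κ ^ 2 * A ^ 2) ≤ D₀) : x * A * 1280 ≤ D₀ := by
  have h1 : 1 ≤ κ ^ 2 * A := by nlinarith
  have h2 : x * (1280 * κ ^ 2 * A ^ 2) = x * A * 1280 * (κ ^ 2 * A) := by ring
  have h3 : x * A * 1280 ≤ x * A * 1280 * (κ ^ 2 * A) :=
    le_mul_of_one_le_right (by positivity) h1
  linarith

/-- For every number `k ≥ 2` of labels, every law `π₀` of the labels which is not uniform and every
`η > 0` there are a connectivity matrix `M₀`, with all entries positive and at most `η`, a radius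
`r > 0` and a gap `c > 0` such that, for all parameters `(π, M)` of a stochastic block model with
`k` labels whose entries are within `r` of those of `(π₀, M₀)`: some estimator achieves non-trivial
correlation; maximum-likelihood estimators exist; none of them achieves non-trivial correlation,
and the probability that the overlap of a maximum-likelihood estimator is at least `max π - c`
tends to `0`. -/
theorem result (k : ℕ) (hk : 2 ≤ k) (π₀ : Fin k → ℝ) (hpos : ∀ i, 0 < π₀ i)
    (hsum : ∑ i, π₀ i = 1) (hne : ∃ i j, π₀ i ≠ π₀ j) (η : ℝ) (hη : 0 < η) :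
    ∃ (M₀ : Fin k → Fin k → ℝ) (r c : ℝ), 0 < r ∧ 0 < c ∧ IsModel π₀ M₀ ∧
      (∀ i j, 0 < M₀ i j ∧ M₀ i j ≤ η) ∧
      ∀ (π : Fin k → ℝ) (M : Fin k → Fin k → ℝ), IsModel π M →
        (∀ i, |π i - π₀ i| ≤ r) → (∀ i j, |M i j - M₀ i j| ≤ r) →
        (∃ est : Estimator k, Achieves π M est) ∧
        (∃ ml : Estimator k, IsML M ml) ∧
        ∀ ml : Estimator k, IsML M ml →
          ¬ Achieves π M ml ∧
          Tendsto (fun n : ℕ => prob π M n
            (fun σ G => (⨆ i, π i) - c ≤ overlap (ml n G) σ)) atTop (𝓝 0) := by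
  have : Nonempty (Fin k) := ⟨⟨0, by omega⟩⟩
  obtain ⟨i₀, hi₀⟩ := Finite.exists_min π₀
  obtain ⟨j₀, hj₀⟩ := Finite.exists_max π₀
  set D₀ : ℝ := π₀ j₀ - π₀ i₀ with hD₀
  have hD0 : 0 < D₀ := by
    obtain ⟨i, j, hij⟩ := hne
    rcases lt_or_gt_of_ne hij with h | h
    · have := hi₀ i; have := hj₀ j; linarith
    · have := hi₀ j; have := hj₀ i; linarith
  have hle1 : ∀ i, π₀ i ≤ 1 := by
    intro i
    rw [← hsum]
    exact Finset.single_le_sum (fun j _ => (hpos j).le) (Finset.mem_univ i)
  set p₀ : ℝ := π₀ i₀ with hp₀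
  have hp0 : 0 < p₀ := hpos i₀
  have hp1 : p₀ ≤ 1 := hle1 i₀
  have hD1 : D₀ ≤ 1 := by have := hle1 j₀; linarith
  set A : ℝ := 64 / p₀ ^ 2 with hA
  have hA0 : 0 < A := by positivity
  have hAp : A * p₀ ^ 2 = 64 := by rw [hA]; field_simp
  have hp2 : p₀ ^ 2 ≤ 1 := pow_le_one₀ hp0.le hp1
  have hA1 : 64 ≤ A := by nlinarith
  have hkR : (2 : ℝ) ≤ k := by exact_mod_cast hk
  have hk0 : (0 : ℝ) < k := by linarith
  set x : ℝ := min (η / A) (D₀ / (1280 * k ^ 2 * A ^ 2)) with hx
  have hx0 : 0 < x := by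
    rw [hx]
    exact lt_min (by positivity) (by positivity)
  have hxη : x * A ≤ η := by
    have : x ≤ η / A := min_le_left _ _
    rwa [le_div_iff₀ hA0] at this
  have hxD : x * (1280 * k ^ 2 * A ^ 2) ≤ D₀ := by
    have : x ≤ D₀ / (1280 * k ^ 2 * A ^ 2) := min_le_right _ _
    rwa [le_div_iff₀ (by positivity)] at this
  -- consequences
  have hw1 : x * A * 1280 ≤ D₀ := num_w hkR hx0 hA1 hxD
  have hwp : x * A * p₀ ^ 2 = 64 * x := by rw [mul_assoc, hAp]; ring
  have hxw : 64 * x ≤ x * A := by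
    have := mul_le_mul_of_nonneg_left hA1 hx0.le
    linarith
  have hxp : x ≤ p₀ / 64 := by
    have h3 : p₀ ^ 2 * (x * A) ≤ p₀ * (x * A) := by
      have : p₀ ^ 2 ≤ p₀ := by nlinarith
      gcongr
    have h4 : p₀ * (x * A) ≤ p₀ * 1 := by
      have : x * A ≤ 1 := by linarith
      gcongr
    linarith
  have hfew := num_few hkR hx0 hA1 hD1 hxD
  have hfail := num_fail hkR hx0 hA1 hD0 hxD
  set w : ℝ := x * A with hw
  have hw0 : 0 < w := by positivity
  have hdet := num_det hp0 hw0 hx0 hwp hxp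
  set z : ℝ := x / (16 * k) with hz
  have hz0 : 0 < z := by positivity
  have hzk : k * z = x / 16 := by rw [hz]; field_simp
  set r : ℝ := x / (32 * k) with hr
  have hr0 : 0 < r := by positivity
  have hrk : k * r = x / 32 := by rw [hr]; field_simp
  have hrx : r ≤ x / 64 := by
    have := mul_le_mul_of_nonneg_right hkR hr0.le
    linarith
  have hzx : z ≤ x / 32 := by
    have := mul_le_mul_of_nonneg_right hkR hz0.le
    linarith
  refine ⟨conn i₀ x w z, r, D₀ / (128 * k * A), hr0, by positivity,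
    ⟨hk, hpos, hsum, fun i j => (conn_pos i₀ hx0 hw0 hz0 i j).le, conn_symm i₀ x w z⟩,
    fun i j => ⟨conn_pos i₀ hx0 hw0 hz0 i j,
      (conn_le i₀ (by linarith) (by linarith) i j).trans hxη⟩, ?_⟩
  intro π M hIM hπr hMr
  obtain ⟨i₁, hi₁⟩ := Finite.exists_max π
  have hR : Region π M i₀ i₁ (D₀ / 2) (x / 2) (z + r) (w / 2) (2 * x) (2 * w) (x / 8) (p₀ / 2)
      (x / 2) (D₀ / (128 * k * A)) := by
    have hD2 : π i₀ + D₀ / 2 ≤ π i₁ := by
      have h1 := (abs_le.1 (hπr i₀)).2
      have h2 := (abs_le.1 (hπr j₀)).1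
      have h3 := hi₁ j₀
      linarith
    have hi01 : i₁ ≠ i₀ := by
      intro h
      rw [h] at hD2
      linarith
    have hoff : ∀ i j, i ≠ j → M i j ≤ z + r := by
      intro i j hij
      have := (abs_le.1 (hMr i j)).2
      rw [conn_off i₀ x w z hij] at this
      linarith
    have hα : ∀ i, x / 2 ≤ M i i := by
      intro i
      have := (abs_le.1 (hMr i i)).1
      by_cases h : i = i₀
      · subst h
        rw [conn_diag] at this
        linarith
      · rw [conn_diag' i₀ x w z h] at this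
        linarith
    have hall : ∀ i j, M i j ≤ 2 * w := by
      intro i j
      have h1 := (abs_le.1 (hMr i j)).2
      have h2 := conn_le i₀ (x := x) (y := w) (z := z) (by linarith) (by linarith) i j
      linarith
    have hβα : 2 * (k : ℝ) * (z + r) ≤ x / 2 := by
      have : 2 * (k : ℝ) * (z + r) = 2 * (k * z) + 2 * (k * r) := by ring
      linarith
    have hB : w / 2 ≤ M i₀ i₀ := by
      have := (abs_le.1 (hMr i₀ i₀)).1
      rw [conn_diag] at this
      linarith
    have hB' : ∀ j, M i₁ j ≤ 2 * x := by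
      intro j
      by_cases h : i₁ = j
      · subst h
        have := (abs_le.1 (hMr i₁ i₁)).2
        rw [conn_diag' i₀ x w z hi01] at this
        linarith
      · have := hoff i₁ j h
        linarith
    have hp : p₀ / 2 ≤ π i₀ := by
      have := (abs_le.1 (hπr i₀)).1
      linarith
    exact { model := hIM, hmax := hi₁, hD := hD2, hD0 := by linarith, hα := by linarith, hαM := hα,
            hβ := hoff, hβα := hβα, hB0 := by linarith, hB := hB, hB'0 := by linarith, hB' := hB',
            hC0 := by linarith, hC1 := by linarith, hC := hall, hδ := by linarith,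
            hδ1 := by linarith, hp := hp, hpδ := by linarith, hε := by linarith, hdet := hdet,
            hνk := hfew, hc := by positivity, hfail := hfail }
  exact ⟨⟨_, hR.achieves⟩, exists_ml (by omega) M,
    fun ml hml => ⟨hR.ml_not_achieves hml, hR.ml_tendsto hml⟩⟩

end Pool.Agent.Results.MP_9b1654_pr.EveryNonUniformPrior
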